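import Pool.Agent.W163.P3.Stm

set_option autoImplicit false

/-!
P3-L1, P3-L2, P3-L3: labels.
-/

open Finset

namespace Pool.Agent.W346.P3

open Pool.Agent.W163.P3

lemma pc_le (a b c : ℕ) : pc a b c ≤ 1 := by
  unfold pc
  split_ifs <;> omega

lemma pc_self (a c : ℕ) : pc a a c = 0 := by
  unfold pc
  rw [if_neg]
  omega

lemma lab_lt (c k : ℕ) : lab c k < 4 := Nat.mod_lt _ (by norm_num)

lemma lab_inj : ∀ c < 3, ∀ c' < 3, ∀ k < 4, lab c k = lab c' k → c = c' := by decide

lemma lab_ne : ∀ c < 3, ∀ k < 4, lab c k ≠ k := by decide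

lemma pc_lab : ∀ c < 3, ∀ c' < 3, ∀ k < 4, ∀ l < 4, k ≠ l → lab c k ≠ lab c' l →
    pc c c' (sd k l) = 0 := by
  intro c hc c' hc' k hk l hl
  interval_cases c <;> interval_cases c' <;> interval_cases k <;> interval_cases l <;> decide

lemma pc_sd : ∀ k < 4, ∀ l < 4, ∀ m < 4, k ≠ l → k ≠ m → l ≠ m →
    pc (sd k l) (sd k m) (sd l m) = 1 := by
  intro k hk l hl m hm
  interval_cases k <;> interval_cases l <;> interval_cases m <;> decide

lemma sd_lt (k l : ℕ) : sd k l < 3 := by
  unfold sd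
  split_ifs <;> omega

lemma comm4 {A B C D M : Type} [AddCommMonoid M] (s : Finset A) (t : Finset B) (u : Finset C)
    (v : Finset D) (F : A → B → C → D → M) :
    ∑ k ∈ s, ∑ l ∈ t, ∑ y ∈ u, ∑ z ∈ v, F k l y z =
      ∑ y ∈ u, ∑ z ∈ v, ∑ k ∈ s, ∑ l ∈ t, F k l y z := by
  calc ∑ k ∈ s, ∑ l ∈ t, ∑ y ∈ u, ∑ z ∈ v, F k l y z
      = ∑ k ∈ s, ∑ y ∈ u, ∑ l ∈ t, ∑ z ∈ v, F k l y z := sum_congr rfl fun _ _ => sum_comm
    _ = ∑ y ∈ u, ∑ k ∈ s, ∑ l ∈ t, ∑ z ∈ v, F k l y z := sum_comm
    _ = ∑ y ∈ u, ∑ k ∈ s, ∑ z ∈ v, ∑ l ∈ t, F k l y z :=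
        sum_congr rfl fun _ _ => sum_congr rfl fun _ _ => sum_comm
    _ = ∑ y ∈ u, ∑ z ∈ v, ∑ k ∈ s, ∑ l ∈ t, F k l y z := sum_congr rfl fun _ _ => sum_comm

section
variable {V : Type} [Fintype V]

lemma Mm_eq (q φ : V → ℕ) (k i : ℕ) :
    Mm q φ k i = ∑ y, (if q y = k ∧ lab (φ y) k = i then 1 else 0) := by
  unfold Mm
  rw [card_filter]

lemma Mm_eq' (q φ : V → ℕ) (k i : ℕ) :
    Mm q φ k i = ∑ y ∈ pt q k, (if lab (φ y) k = i then 1 else 0) := by
  rw [Mm_eq]
  unfold pt
  rw [sum_filter]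
  refine sum_congr rfl fun y _ => ?_
  by_cases h1 : q y = k <;> by_cases h2 : lab (φ y) k = i <;> simp [h1, h2]

end

theorem t_L2 : Pool.Agent.W163.P3.S_L2 := by
  intro V _ _ r hr q φ hφ k hk
  refine ⟨?_, ?_, ?_⟩
  · have h1 : ∑ i ∈ range 4, Mm q φ k i ^ 2 =
        ∑ y ∈ pt q k, ∑ z ∈ pt q k, (if lab (φ y) k = lab (φ z) k then 1 else 0) := by
      have h2 : ∀ i ∈ range 4, Mm q φ k i ^ 2 = ∑ y ∈ pt q k, ∑ z ∈ pt q k,
          (if lab (φ y) k = i then 1 else 0) * (if lab (φ z) k = i then 1 else 0) := by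
        intro i _
        rw [sq, Mm_eq', sum_mul_sum]
      rw [sum_congr rfl h2, sum_comm]
      refine sum_congr rfl fun y _ => ?_
      rw [sum_comm]
      refine sum_congr rfl fun z _ => ?_
      rw [sum_eq_single (lab (φ y) k)]
      · rw [if_pos rfl, one_mul]
        simp only [eq_comm]
      · intro i _ hi
        rw [if_neg (fun h => hi h.symm), zero_mul]
      · intro h
        exact absurd (mem_range.2 (lab_lt _ _)) h
    rw [h1]
    unfold tin
    rw [← sum_add_distrib]
    calc ∑ y ∈ pt q k, (∑ z ∈ pt q k, pc (φ y) (φ z) (r y z) +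
          ∑ z ∈ pt q k, (if lab (φ y) k = lab (φ z) k then 1 else 0))
        ≤ ∑ y ∈ pt q k, ∑ z ∈ pt q k, 1 := by
          refine sum_le_sum fun y _ => ?_
          rw [← sum_add_distrib]
          refine sum_le_sum fun z _ => ?_
          by_cases h : lab (φ y) k = lab (φ z) k
          · rw [if_pos h, lab_inj _ (hφ y) _ (hφ z) k hk h, pc_self]
          · rw [if_neg h]
            exact pc_le _ _ _
      _ = (pt q k).card ^ 2 := by
          rw [sum_const, sum_const, smul_eq_mul, smul_eq_mul, mul_one, sq]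
  · unfold Mm
    rw [card_eq_zero, filter_eq_empty_iff]
    rintro w _ ⟨_, h2⟩
    exact lab_ne _ (hφ w) k hk h2
  · simp only [Mm_eq']
    rw [sum_comm]
    have h1 : ∀ y ∈ pt q k, ∑ i ∈ range 4, (if lab (φ y) k = i then 1 else 0) = 1 := by
      intro y _
      rw [sum_ite_eq, if_pos (mem_range.2 (lab_lt _ _))]
    rw [sum_congr rfl h1, sum_const, smul_eq_mul, mul_one]

section
variable {V : Type} [Fintype V]

lemma sum_pt (q : V → ℕ) (G : V → ℕ) :
    ∑ l ∈ range 4, ∑ y ∈ pt q l, G y = ∑ y, (if q y < 4 then G y else 0) := by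
  unfold pt
  simp only [sum_filter]
  rw [sum_comm]
  refine sum_congr rfl fun y _ => ?_
  rw [sum_ite_eq]
  simp only [mem_range]

lemma card_pt_mul (q : V → ℕ) (l m : ℕ) (c : Prop) [Decidable c] :
    (if c then (pt q l).card * (pt q m).card else 0) =
      ∑ y ∈ pt q l, ∑ z ∈ pt q m, (if c then 1 else 0) := by
  rw [sum_const, sum_const]
  split_ifs <;> simp

end

theorem t_L3 : Pool.Agent.W163.P3.S_L3 := by
  intro V _ _ r hr q φ hφ k hk
  refine ⟨fun w => if q w = k then φ w else if q w < 4 then sd k (q w) else 0, ?_, ?_⟩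
  · intro w
    show (if q w = k then φ w else if q w < 4 then sd k (q w) else 0) < 3
    split_ifs
    · exact hφ w
    · exact sd_lt _ _
    · norm_num
  · have h1 : tin r q φ k = ∑ y, ∑ z, (if q y = k ∧ q z = k then pc (φ y) (φ z) (r y z) else 0) := by
      unfold tin pt
      rw [sum_filter]
      refine sum_congr rfl fun y _ => ?_
      by_cases hy : q y = k
      · rw [if_pos hy, sum_filter]
        refine sum_congr rfl fun z _ => ?_
        by_cases hz : q z = k <;> simp [hy, hz]
      · rw [if_neg hy]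
        symm
        refine sum_eq_zero fun z _ => ?_
        rw [if_neg (fun h => hy h.1)]
    have h2 : ∑ l ∈ range 4, ∑ m ∈ range 4,
        (if l ≠ m ∧ l ≠ k ∧ m ≠ k then (pt q l).card * (pt q m).card else 0) =
        ∑ y, ∑ z, (if q y < 4 ∧ q z < 4 ∧ q y ≠ q z ∧ q y ≠ k ∧ q z ≠ k then 1 else 0) := by
      have h3 : ∀ l ∈ range 4, ∑ m ∈ range 4,
          (if l ≠ m ∧ l ≠ k ∧ m ≠ k then (pt q l).card * (pt q m).card else 0) =
          ∑ y ∈ pt q l, ∑ z, (if q z < 4 ∧ q y ≠ q z ∧ q y ≠ k ∧ q z ≠ k then 1 else 0) := by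
        intro l _
        calc _ = ∑ m ∈ range 4, ∑ y ∈ pt q l, ∑ z ∈ pt q m,
              (if q y ≠ q z ∧ q y ≠ k ∧ q z ≠ k then 1 else 0) := by
              refine sum_congr rfl fun m _ => ?_
              rw [card_pt_mul]
              refine sum_congr rfl fun y hy => sum_congr rfl fun z hz => ?_
              have hy' : q y = l := (mem_filter.1 hy).2
              have hz' : q z = m := (mem_filter.1 hz).2
              rw [hy', hz']
          _ = _ := by
              rw [sum_comm]
              refine sum_congr rfl fun y _ => ?_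
              rw [sum_pt]
              refine sum_congr rfl fun z _ => ?_
              by_cases hz : q z < 4 <;> simp [hz]
      rw [sum_congr rfl h3, sum_pt]
      refine sum_congr rfl fun y _ => ?_
      by_cases hy : q y < 4 <;> simp [hy]
    rw [h1, h2]
    unfold tph Fk
    rw [← sum_add_distrib, ← sum_add_distrib]
    refine sum_le_sum fun y _ => ?_
    rw [← sum_add_distrib, ← sum_add_distrib]
    refine sum_le_sum fun z _ => ?_
    beta_reduce
    by_cases hA : q y = k ∧ q z = k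
    · rw [if_pos hA, if_neg (fun h => h.2.2.2.1 hA.1), if_pos hA.1, if_pos hA.2]
      omega
    · rw [if_neg hA]
      by_cases hB : q y < 4 ∧ q z < 4 ∧ q y ≠ q z ∧ q y ≠ k ∧ q z ≠ k
      · obtain ⟨b1, b2, b3, b4, b5⟩ := hB
        rw [if_pos ⟨b1, b2, b3, b4, b5⟩, if_neg b4, if_neg b5, if_pos b1, if_pos b2]
        unfold fk
        by_cases hC : r y z = sd (q y) (q z)
        · rw [hC, pc_sd k hk _ b1 _ b2 (Ne.symm b4) (Ne.symm b5) b3]
          omega
        · rw [if_pos ⟨b1, b2, b3, hC⟩]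
          omega
      · rw [if_neg hB]
        omega

theorem t_L1 : Pool.Agent.W163.P3.S_L1 := by
  intro V _ _ r hr q φ hφ
  -- the label term
  have hM : ∑ k ∈ range 4, ∑ l ∈ range 4,
      (if k = l then 0 else ∑ i ∈ range 4, Mm q φ k i * Mm q φ l i) =
      ∑ y, ∑ z, ∑ k ∈ range 4, ∑ l ∈ range 4, (if k = l then 0 else ∑ i ∈ range 4,
        (if q y = k ∧ lab (φ y) k = i then 1 else 0) *
          (if q z = l ∧ lab (φ z) l = i then 1 else 0)) := by
    rw [← comm4]
    refine sum_congr rfl fun k _ => sum_congr rfl fun l _ => ?_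
    by_cases hkl : k = l
    · simp [hkl]
    · simp only [if_neg hkl]
      calc ∑ i ∈ range 4, Mm q φ k i * Mm q φ l i
          = ∑ i ∈ range 4, ∑ y, ∑ z, (if q y = k ∧ lab (φ y) k = i then 1 else 0) *
            (if q z = l ∧ lab (φ z) l = i then 1 else 0) := by
            refine sum_congr rfl fun i _ => ?_
            rw [Mm_eq, Mm_eq, sum_mul_sum]
        _ = _ := by
            rw [sum_comm]
            refine sum_congr rfl fun y _ => ?_
            rw [sum_comm]
  -- the inner term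
  have hT : ∑ k ∈ range 4, tin r q φ k =
      ∑ y, ∑ z, (if q y < 4 ∧ q z = q y then pc (φ y) (φ z) (r y z) else 0) := by
    have h3 : ∀ k ∈ range 4, tin r q φ k = ∑ y ∈ pt q k, ∑ z,
        (if q z = q y then pc (φ y) (φ z) (r y z) else 0) := by
      intro k _
      unfold tin
      refine sum_congr rfl fun y hy => ?_
      have hy' : q y = k := (mem_filter.1 hy).2
      unfold pt
      rw [sum_filter, hy']
    rw [sum_congr rfl h3, sum_pt]
    refine sum_congr rfl fun y _ => ?_
    by_cases hy : q y < 4 <;> simp [hy]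
  -- the outer vertices
  have hO : 2 * (univ.filter (fun w : V => 4 ≤ q w)).card * Fintype.card V =
      ∑ y : V, ∑ z : V, ((if 4 ≤ q y then 1 else 0) + (if 4 ≤ q z then 1 else 0)) := by
    simp only [sum_add_distrib, sum_const, card_univ, smul_eq_mul]
    rw [← mul_sum, ← card_filter]
    ring
  rw [hM, hT, hO]
  unfold tph Fk
  rw [← sum_add_distrib, ← sum_add_distrib, ← sum_add_distrib]
  refine sum_le_sum fun y _ => ?_
  rw [← sum_add_distrib, ← sum_add_distrib, ← sum_add_distrib]
  refine sum_le_sum fun z _ => ?_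
  have hp := pc_le (φ y) (φ z) (r y z)
  by_cases hy : 4 ≤ q y
  · rw [if_pos hy]
    omega
  by_cases hz : 4 ≤ q z
  · rw [if_pos hz]
    omega
  have hy' : q y < 4 := by omega
  have hz' : q z < 4 := by omega
  by_cases hyz : q z = q y
  · rw [if_pos (show q y < 4 ∧ q z = q y from ⟨hy', hyz⟩)]
    omega
  by_cases hs : r y z = sd (q y) (q z)
  · by_cases hl : lab (φ y) (q y) = lab (φ z) (q z)
    · have h5 : 1 ≤ ∑ k ∈ range 4, ∑ l ∈ range 4, (if k = l then 0 else ∑ i ∈ range 4,
          (if q y = k ∧ lab (φ y) k = i then 1 else 0) *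
            (if q z = l ∧ lab (φ z) l = i then 1 else 0)) := by
        refine le_trans ?_ (single_le_sum (f := fun k => ∑ l ∈ range 4, (if k = l then 0 else
          ∑ i ∈ range 4, (if q y = k ∧ lab (φ y) k = i then 1 else 0) *
            (if q z = l ∧ lab (φ z) l = i then 1 else 0))) (fun _ _ => Nat.zero_le _)
          (mem_range.2 hy'))
        refine le_trans ?_ (single_le_sum (f := fun l => (if q y = l then 0 else
          ∑ i ∈ range 4, (if q y = q y ∧ lab (φ y) (q y) = i then 1 else 0) *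
            (if q z = l ∧ lab (φ z) l = i then 1 else 0))) (fun _ _ => Nat.zero_le _)
          (mem_range.2 hz'))
        show 1 ≤ (if q y = q z then 0 else _)
        rw [if_neg (fun h => hyz h.symm)]
        refine le_trans ?_ (single_le_sum (f := fun i => (if q y = q y ∧ lab (φ y) (q y) = i
          then 1 else 0) * (if q z = q z ∧ lab (φ z) (q z) = i then 1 else 0))
          (fun _ _ => Nat.zero_le _) (mem_range.2 (lab_lt (φ y) (q y))))
        simp [hl]
      omega
    · rw [hs, pc_lab _ (hφ y) _ (hφ z) _ hy' _ hz' (fun h => hyz h.symm) hl]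
      exact Nat.zero_le _
  · have h6 : fk r q y z = 1 := by
      unfold fk
      rw [if_pos ⟨hy', hz', fun h => hyz h.symm, hs⟩]
    omega

end Pool.Agent.W346.P3
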