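import Pool.Agent.W163.P3.Stm

set_option autoImplicit false

/-!
P3-PROD: substitution.
-/

open Finset

namespace Pool.Agent.W346.P3

open Pool.Agent.W163.P3

lemma pc_le' (a b c : ℕ) : pc a b c ≤ 1 := by
  unfold pc
  split_ifs <;> omega

lemma TS_le {V : Type} (r : V → V → ℕ) (X : Finset V) : TS r X ≤ X.card ^ 3 := by
  unfold TS
  calc ∑ x ∈ X, ∑ y ∈ X, ∑ z ∈ X, pc (r x y) (r x z) (r y z)
      ≤ ∑ _x ∈ X, ∑ _y ∈ X, ∑ _z ∈ X, 1 :=
        sum_le_sum fun x _ => sum_le_sum fun y _ => sum_le_sum fun z _ => pc_le' _ _ _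
    _ = X.card ^ 3 := by
        simp only [sum_const, smul_eq_mul, mul_one]
        ring

lemma TS_equiv {V W : Type} [Fintype V] [Fintype W] (e : V ≃ W) (r : W → W → ℕ) :
    TS (fun x y => r (e x) (e y)) univ = TS r univ := by
  unfold TS
  rw [← Equiv.sum_comp e]
  refine sum_congr rfl fun x _ => ?_
  rw [← Equiv.sum_comp e]
  refine sum_congr rfl fun y _ => ?_
  rw [← Equiv.sum_comp e]

lemma ori_self {V : Type} {r : V → V → ℕ} (h : Ori r) (x : V) : r x x = 0 := by
  have := h x x
  unfold Pr at this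
  omega

/-- the densities are at most one -/
lemma dens_bdd : BddAbove {x : ℝ | ∃ (n : ℕ) (r : Fin n → Fin n → ℕ), 0 < n ∧ Ori r ∧
    x = (TS r univ : ℝ) / (n : ℝ) ^ 3} := by
  refine ⟨1, ?_⟩
  rintro _ ⟨n, r, hn, _, rfl⟩
  have h1 := TS_le r univ
  rw [card_univ, Fintype.card_fin] at h1
  have hn' : (0:ℝ) < (n:ℝ) ^ 3 := by positivity
  rw [div_le_one hn']
  exact_mod_cast h1

lemma dens_ne : {x : ℝ | ∃ (n : ℕ) (r : Fin n → Fin n → ℕ), 0 < n ∧ Ori r ∧
    x = (TS r univ : ℝ) / (n : ℝ) ^ 3}.Nonempty :=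
  ⟨_, 1, fun _ _ => 0, one_pos, fun _ _ => Or.inl ⟨rfl, rfl⟩, rfl⟩

lemma PI_le : PI ≤ 1 := by
  refine csSup_le dens_ne ?_
  rintro _ ⟨n, r, hn, _, rfl⟩
  have h1 := TS_le r univ
  rw [card_univ, Fintype.card_fin] at h1
  have hn' : (0:ℝ) < (n:ℝ) ^ 3 := by positivity
  rw [div_le_one hn']
  exact_mod_cast h1

/-- substitution -/
def sub {n m : ℕ} (r : Fin n → Fin n → ℕ) (s : Fin m → Fin m → ℕ) (p p' : Fin n × Fin m) : ℕ :=
  if p.1 = p'.1 then s p.2 p'.2 else r p.1 p'.1

lemma sub_ori {n m : ℕ} {r : Fin n → Fin n → ℕ} {s : Fin m → Fin m → ℕ} (hr : Ori r)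
    (hs : Ori s) : Ori (sub r s) := by
  intro p p'
  unfold sub
  by_cases h : p.1 = p'.1
  · rw [if_pos h, if_pos h.symm]
    exact hs _ _
  · rw [if_neg h, if_neg (fun h' => h h'.symm)]
    exact hr _ _

lemma TS_sub {n m : ℕ} {r : Fin n → Fin n → ℕ} {s : Fin m → Fin m → ℕ} (hr : Ori r)
    (hs : Ori s) : m ^ 3 * TS r univ + n * TS s univ ≤ TS (sub r s) univ := by
  have h1 : TS (sub r s) univ = ∑ x : Fin n, ∑ y : Fin n, ∑ z : Fin n,
      ∑ i : Fin m, ∑ j : Fin m, ∑ k : Fin m,
        pc (sub r s (x, i) (y, j)) (sub r s (x, i) (z, k)) (sub r s (y, j) (z, k)) := by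
    unfold TS
    rw [Fintype.sum_prod_type]
    refine sum_congr rfl fun x _ => ?_
    have h2 : ∀ i : Fin m, ∑ q : Fin n × Fin m, ∑ q' : Fin n × Fin m,
        pc (sub r s (x, i) q) (sub r s (x, i) q') (sub r s q q') =
        ∑ y : Fin n, ∑ z : Fin n, ∑ j : Fin m, ∑ k : Fin m,
        pc (sub r s (x, i) (y, j)) (sub r s (x, i) (z, k)) (sub r s (y, j) (z, k)) := by
      intro i
      rw [Fintype.sum_prod_type]
      refine sum_congr rfl fun y _ => ?_
      calc _ = ∑ j : Fin m, ∑ z : Fin n, ∑ k : Fin m,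
            pc (sub r s (x, i) (y, j)) (sub r s (x, i) (z, k)) (sub r s (y, j) (z, k)) := by
            refine sum_congr rfl fun j _ => ?_
            rw [Fintype.sum_prod_type]
        _ = _ := sum_comm
    simp only [h2]
    rw [sum_comm]
    refine sum_congr rfl fun y _ => ?_
    rw [sum_comm]
  have h3 : m ^ 3 * TS r univ + n * TS s univ = ∑ x : Fin n, ∑ y : Fin n, ∑ z : Fin n,
      (m ^ 3 * pc (r x y) (r x z) (r y z) + if x = y ∧ x = z then TS s univ else 0) := by
    simp only [sum_add_distrib]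
    congr 1
    · unfold TS
      simp only [mul_sum]
    · have h4 : ∀ x : Fin n, ∑ y : Fin n, ∑ z : Fin n, (if x = y ∧ x = z then TS s univ else 0) =
          TS s univ := by
        intro x
        rw [sum_eq_single x]
        · rw [sum_eq_single x]
          · rw [if_pos ⟨rfl, rfl⟩]
          · intro z _ hz
            rw [if_neg (fun h => hz h.2.symm)]
          · intro h
            exact absurd (mem_univ x) h
        · intro y _ hy
          refine sum_eq_zero fun z _ => ?_
          rw [if_neg (fun h => hy h.1.symm)]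
        · intro h
          exact absurd (mem_univ x) h
      simp only [h4, sum_const, card_univ, Fintype.card_fin, smul_eq_mul]
  rw [h1, h3]
  refine sum_le_sum fun x _ => sum_le_sum fun y _ => sum_le_sum fun z _ => ?_
  by_cases hxy : x = y
  · by_cases hxz : x = z
    · subst hxy
      subst hxz
      rw [ori_self hr, if_pos ⟨rfl, rfl⟩]
      have h5 : pc 0 0 0 = 0 := by decide
      rw [h5, mul_zero, zero_add]
      unfold TS
      refine le_of_eq ?_
      refine sum_congr rfl fun i _ => sum_congr rfl fun j _ => sum_congr rfl fun k _ => ?_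
      simp [sub]
    · subst hxy
      rw [ori_self hr, if_neg (fun h => hxz h.2)]
      have h5 : pc 0 (r x z) (r x z) = 0 := by
        unfold pc
        rw [if_neg]
        omega
      rw [h5, mul_zero, zero_add]
      exact Nat.zero_le _
  · by_cases hxz : x = z
    · subst hxz
      rw [ori_self hr, if_neg (fun h => hxy h.1)]
      have h5 : pc (r x y) 0 (r y x) = 0 := by
        have h6 := hr x y
        unfold Pr at h6
        unfold pc
        rw [if_neg]
        omega
      rw [h5, mul_zero, zero_add]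
      exact Nat.zero_le _
    · rw [if_neg (fun h => hxy h.1), add_zero]
      by_cases hyz : y = z
      · subst hyz
        rw [ori_self hr]
        have h5 : pc (r x y) (r x y) 0 = 0 := by
          unfold pc
          rw [if_neg]
          omega
        rw [h5, mul_zero]
        exact Nat.zero_le _
      · refine le_of_eq ?_
        have h6 : ∀ i j k : Fin m, pc (sub r s (x, i) (y, j)) (sub r s (x, i) (z, k))
            (sub r s (y, j) (z, k)) = pc (r x y) (r x z) (r y z) := by
          intro i j k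
          simp [sub, hxy, hxz, hyz]
        simp only [h6, sum_const, card_univ, Fintype.card_fin, smul_eq_mul]
        ring

theorem t_PROD : Pool.Agent.W163.P3.S_PROD := by
  refine ⟨PI_le, fun n r hn hr => ?_⟩
  have hn' : (0:ℝ) < n := by exact_mod_cast hn
  have h1 : PI ≤ (PI * (n:ℝ) ^ 3 - TS r univ) / n := by
    refine csSup_le dens_ne ?_
    rintro _ ⟨m, s, hm, hs, rfl⟩
    have hm' : (0:ℝ) < m := by exact_mod_cast hm
    have h2 := TS_sub hr hs
    set e : Fin (n * m) ≃ Fin n × Fin m := finProdFinEquiv.symm with he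
    have h3 : Ori (fun x y => sub r s (e x) (e y)) := fun x y => sub_ori hr hs (e x) (e y)
    have h4 : (TS (fun x y => sub r s (e x) (e y)) univ : ℝ) / ((n * m : ℕ) : ℝ) ^ 3 ≤ PI :=
      le_csSup dens_bdd ⟨n * m, _, Nat.mul_pos hn hm, h3, rfl⟩
    rw [TS_equiv e] at h4
    have h5 : (0:ℝ) < ((n * m : ℕ) : ℝ) ^ 3 := by positivity
    rw [div_le_iff₀ h5] at h4
    push_cast at h4
    have h6 : (m:ℝ) ^ 3 * TS r univ + n * TS s univ ≤ TS (sub r s) univ := by exact_mod_cast h2
    have h7 : (m:ℝ) ^ 3 * TS r univ + n * TS s univ ≤ PI * ((n:ℝ) * m) ^ 3 := h6.trans h4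
    rw [div_le_div_iff₀ (by positivity) hn']
    nlinarith
  rw [le_div_iff₀ hn'] at h1
  linarith

end Pool.Agent.W346.P3
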