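import Pool.Agent.W163.P3.Stm

set_option autoImplicit false

/-!
P3-FIN: translation to the frozen statement.
-/

open Finset

namespace Pool.Agent.W346.P3

open Pool.Agent.W163.P3

theorem t_FIN : Pool.Agent.W163.P3.S_FIN := by
  classical
  intro H n G hG
  rcases Nat.eq_zero_or_pos n with h0 | h0
  · subst h0
    have h1 : {p : Fin 0 × Fin 0 × Fin 0 | G.Adj p.1 p.2.1 ∧ G.Adj p.2.1 p.2.2 ∧
        ¬ G.Adj p.1 p.2.2 ∧ ¬ G.Adj p.2.2 p.1} = ∅ := by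
      ext p
      exact p.1.elim0
    rw [h1, Set.ncard_empty]
  set r : Fin n → Fin n → ℕ := fun x y => if G.Adj x y then 1 else if G.Adj y x then 2 else 0 with hr
  have hcase : ∀ x y : Fin n, (G.Adj x y ∧ ¬ G.Adj y x) ∨ (¬ G.Adj x y ∧ G.Adj y x) ∨
      (¬ G.Adj x y ∧ ¬ G.Adj y x) := by
    intro x y
    have h1 := hG x y
    tauto
  have hOri : Ori r := by
    intro x y
    unfold Pr
    simp only [hr]
    rcases hcase x y with ⟨h1, h2⟩ | ⟨h1, h2⟩ | ⟨h1, h2⟩ <;> simp [h1, h2]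
  have h5 := H n r h0 hOri
  set P : Fin n → Fin n → Fin n → ℕ := fun a b c =>
    if G.Adj a b ∧ G.Adj b c ∧ ¬ G.Adj a c ∧ ¬ G.Adj c a then 1 else 0 with hP
  set N := ∑ x, ∑ y, ∑ z, P x y z with hN
  have hcard : {p : Fin n × Fin n × Fin n | G.Adj p.1 p.2.1 ∧ G.Adj p.2.1 p.2.2 ∧
      ¬ G.Adj p.1 p.2.2 ∧ ¬ G.Adj p.2.2 p.1}.ncard = N := by
    rw [Set.ncard_eq_toFinset_card', hN]
    have h6 : {p : Fin n × Fin n × Fin n | G.Adj p.1 p.2.1 ∧ G.Adj p.2.1 p.2.2 ∧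
        ¬ G.Adj p.1 p.2.2 ∧ ¬ G.Adj p.2.2 p.1}.toFinset = univ.filter (fun p : Fin n × Fin n × Fin n =>
        G.Adj p.1 p.2.1 ∧ G.Adj p.2.1 p.2.2 ∧ ¬ G.Adj p.1 p.2.2 ∧ ¬ G.Adj p.2.2 p.1) := by
      ext p
      simp
    rw [h6, card_filter, Fintype.sum_prod_type]
    refine sum_congr rfl fun x _ => ?_
    rw [Fintype.sum_prod_type]
  have e1 : ∑ x, ∑ y, ∑ z, P x z y = N := by
    rw [hN]
    exact sum_congr rfl fun x _ => sum_comm
  have e2 : ∑ x, ∑ y, ∑ z, P y x z = N := by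
    rw [hN]
    exact sum_comm
  have e3 : ∑ x, ∑ y, ∑ z, P y z x = N := by
    rw [hN, sum_comm]
    exact sum_congr rfl fun x _ => sum_comm
  have e4 : ∑ x, ∑ y, ∑ z, P z x y = N := by
    calc ∑ x, ∑ y, ∑ z, P z x y = ∑ x, ∑ z, ∑ y, P z x y := sum_congr rfl fun x _ => sum_comm
      _ = N := by rw [hN]; exact sum_comm
  have e5 : ∑ x, ∑ y, ∑ z, P z y x = N := by
    calc ∑ x, ∑ y, ∑ z, P z y x = ∑ x, ∑ z, ∑ y, P z y x := sum_congr rfl fun x _ => sum_comm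
      _ = ∑ z, ∑ x, ∑ y, P z y x := sum_comm
      _ = N := by
        rw [hN]
        exact sum_congr rfl fun x _ => sum_comm
  have hpt : ∀ x y z : Fin n, P x y z + P x z y + P y x z + P y z x + P z x y + P z y x ≤
      pc (r x y) (r x z) (r y z) := by
    intro x y z
    simp only [hP, hr, pc]
    rcases hcase x y with ⟨h1, h2⟩ | ⟨h1, h2⟩ | ⟨h1, h2⟩ <;>
    rcases hcase x z with ⟨h3, h4⟩ | ⟨h3, h4⟩ | ⟨h3, h4⟩ <;>
    rcases hcase y z with ⟨h5, h6⟩ | ⟨h5, h6⟩ | ⟨h5, h6⟩ <;>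
    simp [h1, h2, h3, h4, h5, h6]
  have hTS : 6 * N ≤ TS r univ := by
    unfold TS
    calc 6 * N = ∑ x, ∑ y, ∑ z, (P x y z + P x z y + P y x z + P y z x + P z x y + P z y x) := by
          simp only [sum_add_distrib]
          rw [e1, e2, e3, e4, e5]
          omega
      _ ≤ _ := sum_le_sum fun x _ => sum_le_sum fun y _ => sum_le_sum fun z _ => hpt x y z
  rw [hcard]
  obtain ⟨m, rfl⟩ : ∃ m, n = m + 1 := ⟨n - 1, by omega⟩
  have h7 : 30 * N + 2 * (m + 1) ≤ 2 * (m + 1) ^ 3 := by omega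
  have h8 : (m + 1 - 1) * (m + 1) * (m + 1 + 1) = m * (m + 1) * (m + 2) := by
    rw [Nat.add_sub_cancel]
  rw [h8]
  have h9 : 2 * (m + 1) ^ 3 = 2 * (m * (m + 1) * (m + 2)) + 2 * (m + 1) := by ring
  omega

end Pool.Agent.W346.P3
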